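import Pool.Agent.Helper12.ZT.Uniform

/-!
# `ζ(2n) / ζ(n) ^ 2` at arbitrary large arguments: no algebraic relation of exponential height

Let `t(n) = ζ(2n) / ζ(n) ^ 2`, and let `β_1, …, β_l` be real algebraic numbers, linearly independent over
`ℚ`, for instance a basis of a real number field. We consider polynomials in all the numbers `t(n)`,
`N ≤ n ≤ κ N`, with a bounded number of terms of bounded degree; the arguments are otherwise arbitrary.
Such a polynomial with coefficients `∑ β_j c_j`, where the `c_j` are integers of absolute value at most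
`C ^ N`, is zero only if all its coefficients are zero, if `N` is large enough, and otherwise its value is
larger than `B ^ (-N)`. In particular distinct numbers `t(n_1), …, t(n_k)` with `N ≤ n_i ≤ κ N` satisfy
no algebraic relation of degree `D` with coefficients at most `C ^ N`, if `N ≥ N₀(k, D, κ, C)`.

The starting file `ExponentialHeights` has the consecutive arguments `n, n + 1, …, n + h` and integral
coefficients, `SchmidtTypeMeasure` has arguments `a n + b` with bounded `a` and `b`. Here the arguments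
are independent of each other.

The proof uses the theorem `mainM` of `Pool.Agent.Y760.ZF.Prod` (starting library, subspace theorem) on
products of multiple zeta values, and power sums with prescribed values (`Pool.Agent.X90.DC.powers`).
-/

set_option autoImplicit false

namespace Pool.Agent.Results.MP_f1a024_nt.ArbitraryArguments

open Finset
open Pool.Agent.Y760.ZG (mz)
open Pool.Agent.X90.DA (fx fx_inj fx_surj eval_fx)
open Pool.Agent.Helper12.ZT (uniform mz_zeta)

/-- `t(n) = ζ(2n) / ζ(n) ^ 2`, with the Riemann zeta function of Mathlib -/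
noncomputable def t (n : ℕ) : ℂ := riemannZeta (2 * n) / riemannZeta n ^ 2

lemma t_eq {n : ℕ} (hn : 2 ≤ n) : t n = ((mz [2 * n] / mz [n] ^ 2 : ℝ) : ℂ) := by
  have h1 := mz_zeta (show 2 ≤ 2 * n by omega)
  have h2 := mz_zeta hn
  push_cast at h1
  rw [t, h1, h2]
  push_cast
  rfl

lemma card_vars {P : MvPolynomial ℕ ℤ} {q D : ℕ} (hq : P.support.card ≤ q) (hD : P.totalDegree ≤ D) :
    P.vars.card ≤ q * D := by
  classical
  have h1 : P.vars ⊆ P.support.biUnion fun e => e.support := by
    intro n hn
    rw [MvPolynomial.mem_vars] at hn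
    obtain ⟨e, he, hne⟩ := hn
    exact mem_biUnion.2 ⟨e, he, hne⟩
  refine (card_le_card h1).trans (card_biUnion_le.trans ?_)
  refine (sum_le_card_nsmul _ _ D fun e he => ?_).trans ?_
  · refine le_trans ?_ ((MvPolynomial.le_totalDegree he).trans hD)
    rw [Finsupp.sum, card_eq_sum_ones]
    exact sum_le_sum fun i hi => Nat.one_le_iff_ne_zero.2 (Finsupp.mem_support_iff.1 hi)
  · rw [smul_eq_mul]
    exact Nat.mul_le_mul_right _ hq

/-- Let `β_1, …, β_l` be real algebraic numbers, linearly independent over `ℚ`, and let `q`, `D`, `κ`, `C`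
be given. There are `B > 1` and `N₀` such that for all `N ≥ N₀` and all polynomials `P_1, …, P_l` with
integer coefficients in the variables `X_n`, `N ≤ n ≤ κ N`, not all zero, with at most `q` terms, of
degree at most `D` and with all coefficients at most `C ^ N` in absolute value,
`|∑ β_j P_j(t)| > B ^ (-N)`, where `P_j(t)` is the value at `X_n = t(n)`. -/
theorem result {l : ℕ} (β : Fin l → ℝ) (hβ : ∀ j, IsAlgebraic ℚ (β j)) (hli : LinearIndependent ℚ β)
    (q D : ℕ) (κ C : ℝ) :
    ∃ B : ℝ, 1 < B ∧ ∃ N₀ : ℕ, ∀ N : ℕ, N₀ ≤ N → ∀ P : Fin l → MvPolynomial ℕ ℤ, P ≠ 0 →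
      (∀ j, (P j).support.card ≤ q) → (∀ j, (P j).totalDegree ≤ D) →
      (∀ j, ∀ n ∈ (P j).vars, N ≤ n ∧ (n : ℝ) ≤ κ * N) →
      (∀ j e, |(((P j).coeff e : ℤ) : ℝ)| ≤ C ^ N) →
      (B ^ N)⁻¹ < ‖∑ j, (β j : ℂ) * MvPolynomial.aeval t (P j)‖ := by
  classical
  choose B hB N₀ H using fun k => uniform β hβ hli k D κ C
  set k₀ : ℕ := l * (q * D) with hk₀
  have hBle : ∀ k ∈ range (k₀ + 1), B k ≤ ∑ k ∈ range (k₀ + 1), B k := fun k hk =>
    single_le_sum (f := B) (fun i _ => by have := hB i; linarith) hk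
  have hNle : ∀ k ∈ range (k₀ + 1), N₀ k ≤ ∑ k ∈ range (k₀ + 1), N₀ k := fun k hk =>
    single_le_sum (f := N₀) (fun i _ => Nat.zero_le _) hk
  refine ⟨∑ k ∈ range (k₀ + 1), B k, lt_of_lt_of_le (hB 0) (hBle 0 (by simp)),
    ∑ k ∈ range (k₀ + 1), N₀ k + 2, fun N hN P hP hq hD hv hc => ?_⟩
  -- the variables
  set V : Finset ℕ := univ.biUnion fun j => (P j).vars with hV
  have hVcard : V.card ∈ range (k₀ + 1) := by
    rw [mem_range, Nat.lt_succ_iff, hk₀]
    refine card_biUnion_le.trans ?_
    refine (sum_le_card_nsmul _ _ (q * D) fun j _ => card_vars (hq j) (hD j)).trans ?_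
    simp
  set n : Fin V.card → ℕ := fun i => V.orderEmbOfFin rfl i with hn
  have hinj : Function.Injective n := (V.orderEmbOfFin rfl).injective
  have hrange : Set.range n = V := by
    rw [hn]
    exact V.range_orderEmbOfFin rfl
  have hnV : ∀ i, n i ∈ V := fun i => by
    have h1 : n i ∈ (V : Set ℕ) := by
      rw [← hrange]
      exact ⟨i, rfl⟩
    exact h1
  have hnN : ∀ i, N ≤ n i ∧ (n i : ℝ) ≤ κ * N := by
    intro i
    obtain ⟨j, -, hj⟩ := mem_biUnion.1 (hnV i)
    exact hv j _ hj
  have hex : ∀ j, ∃ Q : MvPolynomial (Fin V.card) ℤ, MvPolynomial.rename n Q = P j := by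
    intro j
    refine MvPolynomial.exists_rename_eq_of_vars_subset_range (P j) n hinj ?_
    rw [hrange]
    exact_mod_cast subset_biUnion_of_mem (fun j => (P j).vars) (mem_univ j)
  choose Q hQ using hex
  have hQD : ∀ j, (Q j).totalDegree ≤ D := by
    intro j
    refine (Finset.sup_le fun s hs => ?_ : (Q j).totalDegree ≤ D)
    have h1 : Finsupp.mapDomain n s ∈ (P j).support := by
      rw [← hQ, MvPolynomial.mem_support_iff, MvPolynomial.coeff_rename_mapDomain n hinj]
      exact MvPolynomial.mem_support_iff.1 hs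
    have h2 := (MvPolynomial.le_totalDegree h1).trans (hD j)
    rwa [Finsupp.sum_mapDomain_index (fun _ => rfl) (fun _ _ _ => rfl)] at h2
  have hQc : ∀ j e, |(((Q j).coeff e : ℤ) : ℝ)| ≤ C ^ N := by
    intro j e
    rw [← MvPolynomial.coeff_rename_mapDomain n hinj, hQ]
    exact hc j _
  have hQne : ∃ j, ∃ e : Fin V.card → Fin (D + 1), (Q j).coeff (fx e) ≠ 0 := by
    obtain ⟨j, hj⟩ := Function.ne_iff.1 hP
    have h1 : Q j ≠ 0 := by
      intro h
      apply hj
      rw [← hQ, h, map_zero]
      rfl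
    obtain ⟨e, he⟩ := MvPolynomial.support_nonempty.2 h1
    obtain ⟨e', he'⟩ := fx_surj (hQD j) he
    exact ⟨j, e', by rw [he']; exact MvPolynomial.mem_support_iff.1 he⟩
  have hNk := hNle _ hVcard
  have h1 := H V.card N (by omega) n hinj hnN (fun j e => (Q j).coeff (fx e)) (fun j e => hQc j _) hQne
  have hval : ∑ j, (β j : ℂ) * MvPolynomial.aeval t (P j) =
      ((∑ j, β j * ∑ e : Fin V.card → Fin (D + 1), (((Q j).coeff (fx e) : ℤ) : ℝ) *
        ∏ i, (mz [2 * n i] / mz [n i] ^ 2) ^ (e i : ℕ) : ℝ) : ℂ) := by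
    rw [Complex.ofReal_sum]
    refine sum_congr rfl fun j _ => ?_
    rw [Complex.ofReal_mul, ← hQ, MvPolynomial.aeval_rename, eval_fx (hQD j), Complex.ofReal_sum]
    congr 1
    refine sum_congr rfl fun e _ => ?_
    rw [Complex.ofReal_mul, Complex.ofReal_intCast, Complex.ofReal_prod]
    congr 1
    refine prod_congr rfl fun i _ => ?_
    rw [Complex.ofReal_pow]
    congr 1
    exact t_eq (by have := (hnN i).1; omega)
  rw [hval, Complex.norm_real, Real.norm_eq_abs]
  refine lt_of_le_of_lt ?_ h1
  have hBpos : 0 < B V.card := by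
    have := hB V.card
    linarith
  exact inv_anti₀ (pow_pos hBpos N) (pow_le_pow_left₀ hBpos.le (hBle _ hVcard) N)

end Pool.Agent.Results.MP_f1a024_nt.ArbitraryArguments
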