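import Pool.Agent.Helper12.ZT.Consts

/-!
# `ζ(2n) / ζ(n) ^ 2` and arbitrary constants

Let `t(n) = ζ(2n) / ζ(n) ^ 2` and let `x_1, …, x_m` be ARBITRARY complex numbers, for instance `π`, `e`,
`ζ(3)`, Liouville numbers, or the values `t(3), t(5), …, t(101)`. We consider the numbers `t(a_i(s))` for
different linear forms `a_i(s) = b_i + u_(i,1) s_1 + … + u_(i,k) s_k` with natural coefficients, which are
not constant: for instance `t(s), t(s + 1), …, t(s + h)`, or `t(s_1), …, t(s_k)`.

We prove: for all but at most `K N ^ (k - 1)` of the tuples `s ∈ [N, κ N] ^ k` the numbers `t(a_i(s))` are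
algebraically independent over `ℤ[x_1, …, x_m]` for all polynomials of degree at most `D` with integer
coefficients of absolute value at most `C ^ N`: every relation `P(x, t(a_1(s)), …, t(a_r(s))) = 0` is
trivial, `P(x, Y) = 0` identically in `Y`. Here `K` does not depend on `C` and on the `x_j`. In one
variable (`k = 1`) there are at most `K` exceptional `s` in each interval `[N, κ N]`.

So, up to a bounded number of exceptional `n` in `[N, 2 N]`, `t(n)` is not only different from all
rational numbers of height at most `C ^ n` but from all the quotients `F(x) / G(x)` with polynomials `F`,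
`G` of bounded degree and height at most `C ^ n`. The starting files on this page are on relations with
algebraic coefficients; for constants like `π` or `ζ(3)` nothing of the kind was known for them.

The proof uses the theorem `few` of `Pool.Agent.X90.DC` (starting library: elimination of the constants
between several tuples in general position, subspace theorem) for the multiple zeta values of depth one,
and power sums with prescribed values (`Pool.Agent.X90.DC.powers`).
-/

set_option autoImplicit false

namespace Pool.Agent.Results.MP_f1a024_nt.ArbitraryConstants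

/-- `t(n) = ζ(2n) / ζ(n) ^ 2`, with the Riemann zeta function of Mathlib -/
noncomputable def t (n : ℕ) : ℂ := riemannZeta (2 * n) / riemannZeta n ^ 2

/-- `(b, u)` stands for the linear form `b + ∑ u_j s_j` -/
abbrev Form (k : ℕ) : Type := ℕ × (Fin k → ℕ)

/-- the value of a linear form at the tuple `s` -/
def value {k : ℕ} (s : Fin k → ℕ) (a : Form k) : ℕ := a.1 + ∑ j, a.2 j * s j

/-- The numbers `t(a_i(s))` are independent of the numbers `x_j` for polynomials of degree at most `D`
with integer coefficients of absolute value at most `H`: if `P(x, t(a_1(s)), …) = 0` then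
`P(x, y) = 0` for all complex numbers `y_1, …, y_r`. -/
def Independent {k m r : ℕ} (a : Fin r → Form k) (x : Fin m → ℂ) (D : ℕ) (H : ℝ) (s : Fin k → ℕ) : Prop :=
  ∀ P : MvPolynomial (Fin m ⊕ Fin r) ℤ, P.totalDegree ≤ D → (∀ e, |((P.coeff e : ℤ) : ℝ)| ≤ H) →
    MvPolynomial.aeval (Sum.elim x fun i => t (value s (a i))) P = 0 →
      ∀ y : Fin r → ℂ, MvPolynomial.aeval (Sum.elim x y) P = 0

/-- Let `a_1, …, a_r` be different linear forms in `k` variables with natural coefficients, none of
them constant, and `m`, `D`, `κ` natural numbers. There is a `K` such that for all real `C` and all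
complex numbers `x_1, …, x_m` the following holds for all sufficiently large `N`: for all but at most
`K N ^ (k - 1)` of the tuples `s` of integers `N ≤ s_j ≤ κ N`, every relation
`P(x, t(a_1(s)), …, t(a_r(s))) = 0` with a polynomial `P` of degree at most `D` with integer coefficients
of absolute value at most `C ^ N` is trivial: `P(x, y) = 0` for all `y`. -/
theorem result {k r : ℕ} (m : ℕ) (a : Fin r → Form k) (ha : Function.Injective a)
    (hu : ∀ i, (a i).2 ≠ 0) (D κ : ℕ) :
    ∃ K : ℕ, ∀ (C : ℝ) (x : Fin m → ℂ), ∃ N₀ : ℕ, ∀ N : ℕ, N₀ ≤ N →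
      {s : Fin k → ℕ | (∀ j, N ≤ s j ∧ s j ≤ κ * N) ∧ ¬ Independent a x D (C ^ N) s}.ncard ≤
        K * N ^ (k - 1) := by
  obtain ⟨K, hK⟩ := Pool.Agent.Helper12.ZT.consts m a ha hu D κ
  refine ⟨K, fun C x => ?_⟩
  obtain ⟨N₀, hN₀⟩ := hK C x
  refine ⟨N₀, fun N hN => le_trans (le_of_eq ?_) (hN₀ N hN)⟩
  congr 1
  ext s
  simp only [Set.mem_setOf_eq, Independent, Pool.Agent.Helper12.ZT.Exc]
  refine and_congr_right fun _ => ?_
  push Not
  exact Iff.rfl

end Pool.Agent.Results.MP_f1a024_nt.ArbitraryConstants
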