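import Pool.Agent.N760.SC.B
import Pool.Agent.Results.MP_f1a024_nt.ArbitraryConstants

/-!
# `ζ(2n) / ζ(n) ^ 2` and arbitrary constants, at the values of arithmetic functions

Let `t(n) = ζ(2n) / ζ(n) ^ 2`, let `x_1, …, x_m` be ARBITRARY complex numbers, and let
`a_i(s) = b_i + u_(i,1) s_1 + … + u_(i,k) s_k` be different linear forms with natural coefficients, which
are not constant. We consider the relations `P(x, t(a_1(s)), …, t(a_r(s))) = 0` with polynomials `P` of
bounded degree and integer coefficients of exponential size.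

Let `F_1, …, F_k` be positive multiplicative functions of at most polynomial growth with `F_i p ≤ M p`
for the large primes `p` and different values at different large primes, for example Euler's function
or the sum of the divisors. For all large `N` and all tuples `n` in `[1, N] ^ k` but at most
`N ^ k / (log N) ^ U` of them the following holds for ALL the tuples `s` of natural numbers near the
tuple of the values, `|s_i - F_i(n_i)| ≤ F_i(n_i) ^ θ`, in a cone `T ≤ s_i ≤ κ T` (`k θ < 1`): every such
relation with coefficients of absolute value at most `C ^ T` is trivial, `P(x, Y) = 0` identically in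
`Y`. For instance, for `k = 1`: for almost all `n` the number `t(φ(n))` is different from all the
quotients `F(x) / G(x)` of polynomials of bounded degree and height at most `C ^ φ(n)`.

The tuples of the values of such functions form a thin set (for Euler's function, a set with about
`X ^ k / (log X) ^ k` elements up to `X`, up to smaller factors) and they are taken with very large
multiplicities. So this does not follow from the number of the exceptional tuples
(`ArbitraryConstants`: at most `K N ^ (k - 1)` in `[N, κ N] ^ k`). The tool for the values of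
multiplicative functions is `Pool.Agent.N760.SC` (starting library).
-/

set_option autoImplicit false

namespace Pool.Agent.Results.MP_f1a024_nt.MultiplicativeValues

open Pool.Agent.N733.TG (LM lm_totient lm_sigma)
open Pool.Agent.Results.MP_f1a024_nt.ArbitraryConstants (t Form value Independent)

lemma independent_mono {k m r : ℕ} (a : Fin r → Form k) (x : Fin m → ℂ) (D : ℕ) {H H' : ℝ} (h : H ≤ H')
    (s : Fin k → ℕ) (hs : Independent a x D H' s) : Independent a x D H s :=
  fun P h1 h2 h3 => hs P h1 (fun e => (h2 e).trans h) h3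

lemma pow_bound (C : ℝ) {N T : ℕ} (h : T ≤ 2 * N) : C ^ T ≤ ((max |C| 1) ^ 2) ^ N := by
  have h5 : (1 : ℝ) ≤ max |C| 1 := le_max_right _ _
  calc C ^ T ≤ |C ^ T| := le_abs_self _
    _ = |C| ^ T := abs_pow C T
    _ ≤ (max |C| 1) ^ T := pow_le_pow_left₀ (abs_nonneg C) (le_max_left _ _) T
    _ ≤ (max |C| 1) ^ (2 * N) := pow_le_pow_right₀ h5 h
    _ = _ := pow_mul _ _ _

/-- Let `a_1, …, a_r` be different linear forms in `k ≥ 1` variables with natural coefficients, none of
them constant, `x_1, …, x_m` complex numbers, `D`, `κ` natural numbers and `C` a real number. Let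
`F_1, …, F_k` be functions with `LM`, `θ ≥ 0`, `k θ < 1`, and `U` a natural number. For all large `N` and
all but at most `N^k / (log N)^U` of the tuples `n` of integers in `[1, N]`: for ALL tuples `s` of natural
numbers with `|s_i - F_i(n_i)| ≤ F_i(n_i)^θ` and all `T ≥ 1` with `T ≤ s_i ≤ κ T` for all `i`, every
relation `P(x, t(a_1(s)), …, t(a_r(s))) = 0` with a polynomial `P` of degree at most `D` with integer
coefficients of absolute value at most `C ^ T` is trivial: `P(x, y) = 0` for all `y`. Euler's function
and the sum of the divisors satisfy `LM`. -/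
theorem result :
    (∀ {k r m : ℕ}, 1 ≤ k → ∀ a : Fin r → Form k, Function.Injective a → (∀ i, (a i).2 ≠ 0) →
      ∀ (x : Fin m → ℂ) (D κ : ℕ) (C : ℝ) (F : Fin k → ℕ → ℕ), (∀ i, LM (F i)) →
      ∀ θ : ℝ, 0 ≤ θ → k * θ < 1 → ∀ U : ℕ, ∃ N₀ : ℕ, ∀ N : ℕ, N₀ ≤ N →
      ({n : Fin k → ℕ | (∀ i, 1 ≤ n i ∧ n i ≤ N) ∧ ¬ ∀ (s : Fin k → ℕ) (T : ℕ), 1 ≤ T →
        (∀ i, T ≤ s i ∧ s i ≤ κ * T) → (∀ i, |(s i : ℝ) - F i (n i)| ≤ (F i (n i) : ℝ) ^ θ) →
          Independent a x D (C ^ T) s}.ncard : ℝ) ≤ (N : ℝ) ^ k / Real.log N ^ U) ∧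
    LM Nat.totient ∧ LM (fun n => ∑ d ∈ n.divisors, d) := by
  refine ⟨fun {k r m} hk a ha hu x D κ C F hF θ hθ hθk U => ?_, lm_totient, lm_sigma⟩
  obtain ⟨K, hK⟩ := ArbitraryConstants.result m a ha hu D (2 * κ)
  obtain ⟨N₁, hN₁⟩ := hK ((max |C| 1) ^ 2) x
  obtain ⟨N₀, hN₀⟩ := Pool.Agent.N760.SC.keep_scales hk κ (fun T s => ¬ Independent a x D (C ^ T) s)
    (fun N s => ¬ Independent a x D (((max |C| 1) ^ 2) ^ N) s)
    (fun N T s h1 h2 h3 h4 => h3 (independent_mono a x D (pow_bound C h2.le) s h4))
    ⟨K, N₁, hN₁⟩ hF hθ hθk U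
  refine ⟨N₀, fun N hN => le_trans (le_of_eq ?_) (hN₀ N hN)⟩
  simp only [not_not]

end Pool.Agent.Results.MP_f1a024_nt.MultiplicativeValues
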