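import Pool.Agent.Helper12.BK.Dyadic
import Pool.Agent.Results.MP_f1a024_nt.ArbitraryConstants
import Pool.Agent.R482.ST.Star

/-!
# `ζ(2n) / ζ(n) ^ 2` and arbitrary constants, near powers, orbits and other sequences

Let `t(n) = ζ(2n) / ζ(n) ^ 2`, let `x_1, …, x_m` be ARBITRARY complex numbers, for instance `π`, `e`,
`ζ(3)`, and let `D`, `h`, `C` be given. We consider the natural numbers `n` for which
`t(n), t(n + 1), …, t(n + h)` are algebraically independent over `ℤ[x_1, …, x_m]` for all polynomials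
of degree at most `D` with integer coefficients of absolute value at most `C ^ n` (`IndependentAt`).

Let `f_j`, `j = 0, 1, 2, …`, be positive functions on `(a, ∞)`, `a ≥ 0`, such that `f_j(α) / α` is
nondecreasing, and such that the sequence `f_j(α)` has exponent of convergence at most `τ` for each
`α > a`: for instance `f_j(α) = α ^ (v_j)` for exponents `v_j ≥ 1` (`τ = 0`; all powers, the powers
`α ^ (3 ^ j)` of Mills, …), the orbits `f_j(α) = g (g (⋯ g (α)))` of any map `g` with `g(α) > α` and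
`g(α) / α` nondecreasing (`τ = 0`; for instance of `α² + c`), and `f_j(α) = v_j α`. Let `θ < 1`. For all
`α > a` outside a set of Hausdorff dimension at most `τ / (1 - θ)` (for `τ = 0`, outside a set of
Hausdorff dimension ZERO), every `κ`, all but finitely many `j` and ALL natural numbers `n` with
`|n - f_j(α)| ≤ κ f_j(α) ^ θ` the numbers `t(n), …, t(n + h)` are independent of the `x_i` in this sense.

It is not known that there are only finitely many exceptional `n`; by `ArbitraryConstants` there are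
boundedly many in `[N, 2 N]`.

Proof: the starting library `R482/ST` (thin sets in windows around starshaped functions) and
`ArbitraryConstants`.
-/

set_option autoImplicit false

namespace Pool.Agent.Results.MP_f1a024_nt.PowersAndOrbits

open Pool.Agent.Results.MP_f1a024_nt.ArbitraryConstants (t Form value Independent)

/-- The numbers `t(n), t(n + 1), …, t(n + h)` are independent of the numbers `x_j` for polynomials of
degree at most `D` with integer coefficients of absolute value at most `C ^ n`: if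
`P(x, t(n), …, t(n + h)) = 0` then `P(x, y) = 0` for all complex numbers `y_0, …, y_h`. -/
def IndependentAt {m : ℕ} (x : Fin m → ℂ) (h D : ℕ) (C : ℝ) (n : ℕ) : Prop :=
  ∀ P : MvPolynomial (Fin m ⊕ Fin (h + 1)) ℤ, P.totalDegree ≤ D → (∀ e, |((P.coeff e : ℤ) : ℝ)| ≤ C ^ n) →
    MvPolynomial.aeval (Sum.elim x fun i : Fin (h + 1) => t (n + i)) P = 0 →
      ∀ y : Fin (h + 1) → ℂ, MvPolynomial.aeval (Sum.elim x y) P = 0

/-- the functions `f n` are positive on `(a, ∞)`, `a ≥ 0`, and `f n x / x` is nondecreasing there -/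
def Starshaped (a : ℝ) (f : ℕ → ℝ → ℝ) : Prop :=
  0 ≤ a ∧ ∀ n : ℕ, ∀ x y : ℝ, a < x → x ≤ y → 0 < f n x ∧ f n x / x ≤ f n y / y

/-- for each `x > a` the exponent of convergence of the sequence `f n x` is at most `τ` -/
def ExpLe (a : ℝ) (f : ℕ → ℝ → ℝ) (τ : ℝ) : Prop :=
  ∀ x : ℝ, a < x → ∀ t : ℝ, τ < t → Summable (fun n : ℕ => (f n x) ^ (-t))

/-- boundedly many exceptional `n` in each `[N, 2 N]` -/
theorem scales {m : ℕ} (x : Fin m → ℂ) (h D : ℕ) (C : ℝ) : ∃ K N₀ : ℕ, ∀ N : ℕ, N₀ ≤ N →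
    {n : ℕ | N ≤ n ∧ n ≤ 2 * N ∧ ¬ IndependentAt x h D C n}.ncard ≤ K := by
  set a : Fin (h + 1) → Form 1 := fun i => ((i : ℕ), fun _ => 1) with ha
  have hinj : Function.Injective a := by
    intro i j hij
    exact Fin.ext (congrArg Prod.fst hij)
  have hu : ∀ i, (a i).2 ≠ 0 := by
    intro i h0
    have := congrFun h0 0
    simp [ha] at this
  obtain ⟨K, hK⟩ := ArbitraryConstants.result m a hinj hu D 2
  obtain ⟨N₀, hN₀⟩ := hK ((max |C| 1) ^ 2) x
  refine ⟨K, N₀, fun N hN => ?_⟩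
  have h1 := hN₀ N hN
  rw [Nat.sub_self, pow_zero, mul_one] at h1
  refine le_trans (Set.ncard_le_ncard_of_injOn (fun (n : ℕ) (_ : Fin 1) => n) ?_ ?_ ?_) h1
  · rintro n ⟨hn1, hn2, hn3⟩
    refine ⟨fun _ => ⟨hn1, hn2⟩, fun hind => hn3 fun P h2 h3 h4 => hind P h2 (fun e => (h3 e).trans ?_) ?_⟩
    · have h5 : (1 : ℝ) ≤ max |C| 1 := le_max_right _ _
      calc C ^ n ≤ |C ^ n| := le_abs_self _
        _ = |C| ^ n := abs_pow C n
        _ ≤ (max |C| 1) ^ n := pow_le_pow_left₀ (abs_nonneg C) (le_max_left _ _) n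
        _ ≤ (max |C| 1) ^ (2 * N) := pow_le_pow_right₀ h5 hn2
        _ = _ := pow_mul _ _ _
    · rw [← h4]
      congr 2
      funext j
      rcases j with j | i
      · rfl
      · show t (value (fun _ => n) (a i)) = t (n + i)
        congr 1
        rw [value, ha]
        simp [add_comm]
  · intro n _ n' _ hnn'
    exact congrFun hnn' 0
  · refine (Set.Finite.pi' (t := fun _ : Fin 1 => Set.Icc N (2 * N)) fun _ => Set.finite_Icc _ _).subset ?_
    intro s hs j
    exact ⟨(hs.1 j).1, (hs.1 j).2⟩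

/-- Let `x_1, …, x_m` be complex numbers, `h`, `D` natural numbers and `C` a real number. For all
starshaped functions `f` on `(a, ∞)` of exponent of convergence at most `τ ≥ 0` and `θ < 1` there is a set
`E` of Hausdorff dimension at most `τ / (1 - θ)` such that for each `α > a` outside `E`, each `κ`, all but
finitely many `j` and ALL natural numbers `n` with `|n - f_j(α)| ≤ κ f_j(α) ^ θ`, every relation
`P(x, t(n), …, t(n + h)) = 0` with a polynomial `P` of degree at most `D` with integer coefficients of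
absolute value at most `C ^ n` is trivial: `P(x, y) = 0` for all `y`. The functions `v_j x`, `v_j > 0`, are
starshaped on `(0, ∞)`, of exponent `τ` if `v` has exponent of convergence at most `τ`; the functions
`x ^ (v_j)`, `v_j ≥ 1`, are starshaped on `(1, ∞)`, of exponent `0` if the sums of `exp (-t v_j)` converge
for `t > 0`; and the iterates of a map `g` with `g(x) > x` for `x > a` and `g(x) / x` nondecreasing are
starshaped on `(a, ∞)`, of exponent `0`. -/
theorem result :
    (∀ {m : ℕ} (x : Fin m → ℂ) (h D : ℕ) (C : ℝ),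
      ∀ (a : ℝ) (f : ℕ → ℝ → ℝ) (τ θ : ℝ), Starshaped a f → 0 ≤ τ → ExpLe a f τ → θ < 1 →
      ∃ E : Set ℝ, dimH E ≤ ENNReal.ofReal (τ / (1 - θ)) ∧
        ∀ α : ℝ, a < α → α ∉ E → ∀ κ : ℝ, ∃ j₀ : ℕ, ∀ j : ℕ, j₀ ≤ j → ∀ n : ℕ,
          |(n : ℝ) - f j α| ≤ κ * (f j α) ^ θ → IndependentAt x h D C n) ∧
    (∀ (v : ℕ → ℝ) (τ : ℝ), (∀ n, 0 < v n) → (∀ t : ℝ, τ < t → Summable (fun n : ℕ => (v n) ^ (-t))) →
      Starshaped 0 (fun n x => v n * x) ∧ ExpLe 0 (fun n x => v n * x) τ) ∧
    (∀ v : ℕ → ℝ, (∀ n, 1 ≤ v n) → (∀ t : ℝ, 0 < t → Summable fun n : ℕ => Real.exp (-(t * v n))) →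
      Starshaped 1 (fun n x => x ^ (v n)) ∧ ExpLe 1 (fun n x => x ^ (v n)) 0) ∧
    (∀ (a : ℝ) (g : ℝ → ℝ), 0 ≤ a → (∀ x y : ℝ, a < x → x ≤ y → g x / x ≤ g y / y) → (∀ x : ℝ, a < x → x < g x) →
      Starshaped a (fun n x => g^[n] x) ∧ ExpLe a (fun n x => g^[n] x) 0) := by
  refine ⟨?_, Pool.Agent.R482.ST.ex_mul, Pool.Agent.R482.ST.ex_pow, Pool.Agent.R482.ST.ex_orbit⟩
  intro m x h D C a f τ θ hf hτ hE hθ1
  obtain ⟨K, N₀, hN₀⟩ := scales x h D C
  have hc := Pool.Agent.Helper12.BK.thin_of_scales hN₀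
  obtain ⟨E, h2, h3⟩ := Pool.Agent.R482.ST.windows {n : ℕ | ¬ IndependentAt x h D C n} (fun n : ℕ => (n : ℝ))
    hf hτ hE (s := 0) le_rfl hθ1 hc
  rw [zero_add] at h2
  refine ⟨E, h2, fun α hα hαE κ => ?_⟩
  obtain ⟨n₀, hn⟩ := h3 α hα hαE κ
  refine ⟨n₀, fun n hn1 s hs => ?_⟩
  by_contra hcon
  exact absurd (hn n hn1 s hcon) (not_lt.2 hs)

end Pool.Agent.Results.MP_f1a024_nt.PowersAndOrbits
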